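import Pool.Agent.AKH.Depth2
import Pool.Agent.AK.Exact

/-!
# MP_0af329_co: the number of non-acute triangles and the points in right-angled sectors
-/

set_option autoImplicit false

namespace Pool.Agent.Results.MP_0af329_co.DepthExact

open Pool.Agent.MP_0af329_co Finset

open Pool.Agent.MP_0af329_co.Cvx (ConvexPos)

/-- `m(m-1)(2m-1)`, `m²(2m-1)`, `m²(2m+1)` for `n = 3m, 3m+1, 3m+2` (Turán's numbers for (4, 3)). -/
def T4 (n : ℕ) : ℕ :=
  if n % 3 = 0 then (n / 3) * (n / 3 - 1) * (2 * (n / 3) - 1)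
  else if n % 3 = 1 then (n / 3) ^ 2 * (2 * (n / 3) - 1)
  else (n / 3) ^ 2 * (2 * (n / 3) + 1)

/-- inner product of `u` and `q - v` -/
def dot (u v q : Pt) : ℝ := u 0 * (q 0 - v 0) + u 1 * (q 1 - v 1)

/-- cross product of `u` and `q - v` -/
def cross (u v q : Pt) : ℝ := u 0 * (q 1 - v 1) - u 1 * (q 0 - v 0)

open Classical in
/-- The number of points of `S` in the open right-angled sector with apex `v` whose sides have the
directions `u` and `u` turned counterclockwise by `π / 2`. -/
noncomputable def sec (S : Finset Pt) (v u : Pt) : ℕ :=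
  #{q ∈ S | 0 < dot u v q ∧ 0 < cross u v q}

/-- `v` is the apex of an open right-angled sector with at most `s` points of `S`. -/
def Sector (S : Finset Pt) (v : Pt) (s : ℝ) : Prop := ∃ u : Pt, u ≠ 0 ∧ (sec S v u : ℝ) ≤ s

/-- Every point `v` of `S` in the convex hull of the others is the apex of an open right-angled
sector with at most `d v` points of `S`. -/
def Sectors (S : Finset Pt) (d : Pt → ℕ) : Prop :=
  ∀ v ∈ S, v ∈ convexHull ℝ ((S : Set Pt) \ {v}) → Sector S v (d v)

open Classical in
/-- The number of points of `S` which are not the apex of an open right-angled sector with at most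
`δ |S|` points of `S`. -/
noncomputable def deep (S : Finset Pt) (δ : ℝ) : ℕ := #{v ∈ S | ¬ Sector S v (δ * S.card)}

/-- The number of ordered triples of distinct points. -/
def ang (S : Finset Pt) : ℝ := (S.card : ℝ) * ((S.card : ℝ) - 1) * ((S.card : ℝ) - 2)

/-- A lower bound for the number of non-acute angles of every set in terms of the numbers of points
in right-angled sectors; it is sharp for every `n`; its form for obtuse angles if almost all points
have a right-angled sector with few points. -/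
theorem result :
    (∀ S : Finset Pt, GenPos S → ∀ d : Pt → ℕ, Sectors S d →
      2 * T4 S.card ≤ cnt S (Set.Ici (Real.pi / 2)) + ∑ v ∈ S, d v * (d v - 1)) ∧
    (∀ n : ℕ, ∃ S : Finset Pt, S.card = n ∧ GenPos S ∧ ConvexPos S ∧
      cnt S (Set.Ici (Real.pi / 2)) = 2 * T4 n) ∧
    (∀ ε : ℝ, 0 < ε → ∃ δ : ℝ, 0 < δ ∧ ∃ n₀ : ℕ, ∀ S : Finset Pt, GenPos S → n₀ ≤ S.card →
      (deep S δ : ℝ) ≤ δ * S.card → (4 / 27 - ε) * ang S ≤ cnt S (Set.Ioi (Real.pi / 2))) := by
  refine ⟨fun S hS d hd => Pool.Agent.AKH.depth_bound' S hS d fun v hv hv' => ?_, fun n => ?_,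
    fun ε hε => Pool.Agent.AKH.depth_limit ε hε⟩
  · obtain ⟨u, hu, hs⟩ := hd v hv hv'
    exact ⟨u, hu, by exact_mod_cast hs⟩
  · obtain ⟨S, h1, h2, h3, h4⟩ := Pool.Agent.AK.exists_convex_exact n
    have h5 := Pool.Agent.AK.le_cnt_convex S h2 h3
    rw [h1] at h5
    exact ⟨S, h1, h2, h3, le_antisymm h4 h5⟩

end Pool.Agent.Results.MP_0af329_co.DepthExact
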