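import Pool.Agent.MP_0af329_co.JE2
import Pool.Agent.MP_0af329_co.JTE
import Pool.Agent.MP_0af329_co.JPE
import Pool.Agent.MP_0af329_co.JWE

/-!
# MP_0af329_co: `F` is discontinuous at `π - π/k` for every `k ≥ 2`, with exact right limits, and at
`2π/5` and `3π/5`; `F` is constant just after `π/2`
-/

set_option autoImplicit false

namespace Pool.Agent.Results.MP_0af329_co.FJumps

open Pool.Agent.MP_0af329_co Filter Topology

/-- For every `α` the limit `F(α)` exists, and `F` is continuous from the left.  For every `k ≥ 1`: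
`F ≥ 1/(3·4^(k-1))` up to and including `π - π/k`, `F ≤ 1/(3·4^(k-1))` after `π - π/k`, and `F` tends
to `1/(3·4^(k-1))` from the right.  For every `k ≥ 2` the value at `π - π/k` is strictly larger than
this limit, so `F` is discontinuous at `π - π/k`; for odd `k` it is larger by at least
`1/(8192·32^(k-1))`.  Moreover `F` is discontinuous at `2π/5` and at `3π/5`: `F ≥ 241/1000` up to and
including `2π/5`, `F ≤ 13/54` after `2π/5`, `F ≥ 13/210` up to and including `3π/5`, `F ≤ 89/1500`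
after `3π/5`.  Finally `F` is constant, equal to `1/12`, on the interval
`(π/2, π/2 + 10⁻¹⁵]`. -/
theorem result :
    (∀ α : ℝ, Tendsto (fun n : ℕ => ratio n (Set.Ioi α)) atTop (𝓝 (F α))) ∧
    (∀ α : ℝ, ContinuousWithinAt F (Set.Iic α) α) ∧
    (∀ k : ℕ, 1 ≤ k →
      (∀ α : ℝ, α ≤ Real.pi - Real.pi / k → 1 / (3 * 4 ^ (k - 1)) ≤ F α) ∧
      (∀ α : ℝ, Real.pi - Real.pi / k < α → F α ≤ 1 / (3 * 4 ^ (k - 1))) ∧
      Tendsto F (𝓝[>] (Real.pi - Real.pi / k)) (𝓝 (1 / (3 * 4 ^ (k - 1))))) ∧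
    (∀ k : ℕ, 2 ≤ k →
      1 / (3 * 4 ^ (k - 1)) < F (Real.pi - Real.pi / k) ∧
      ¬ ContinuousAt F (Real.pi - Real.pi / k)) ∧
    (∀ k : ℕ, 3 ≤ k → Odd k →
      1 / (3 * 4 ^ (k - 1)) + 1 / (8192 * 32 ^ (k - 1)) ≤ F (Real.pi - Real.pi / k)) ∧
    ((∀ α : ℝ, α ≤ 2 * Real.pi / 5 → 241 / 1000 ≤ F α) ∧
      (∀ α : ℝ, 2 * Real.pi / 5 < α → F α ≤ 13 / 54) ∧
      ¬ ContinuousAt F (2 * Real.pi / 5)) ∧
    ((∀ α : ℝ, α ≤ 3 * Real.pi / 5 → 13 / 210 ≤ F α) ∧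
      (∀ α : ℝ, 3 * Real.pi / 5 < α → F α ≤ 89 / 1500) ∧
      ¬ ContinuousAt F (3 * Real.pi / 5)) ∧
    (∀ α : ℝ, Real.pi / 2 < α → α ≤ Real.pi / 2 + 1 / 10 ^ 15 → F α = 1 / 12) :=
  ⟨fun _ => tendsto_ratio _, F_left, fun k hk => ⟨JF.le_F k hk, JF.F_le_four k hk,
    JF.tendsto_F_right k hk⟩,
    fun k hk => ⟨JF.F_gt k hk, JF.not_continuousAt_of_gt k (by omega) (JF.F_gt k hk)⟩,
    JF.F_odd,
    ⟨fun α hα => hα.lt_or_eq.elim (JW.le_F_of_lt α) (fun h => h ▸ JW.le_F_two_fifth),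
      JV.F_le_two_fifth, JW.not_continuousAt_F_two_fifth⟩,
    ⟨fun α hα => hα.lt_or_eq.elim (JT.le_F_of_lt α) (fun h => h ▸ JT.le_F_fifth),
      JT.F_le_fifth, JT.not_continuousAt_F_fifth⟩,
    JP.F_eq_right⟩

end Pool.Agent.Results.MP_0af329_co.FJumps
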