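import Pool.Agent.MP_0af329_co.QFin2

/-!
# MP_0af329_co: the values and the discontinuities of `G` on `[π/4, π)`
-/

set_option autoImplicit false

namespace Pool.Agent.Results.MP_0af329_co.GQuarter

open Pool.Agent.MP_0af329_co Filter Topology

/-- For every `α` the limit `G(α)` exists; `G = 8/27` on `[π/4, π/3)`, `G = 5/12` on `[π/3, π/2)`,
`G = 2/3` on `[π/2, π)` and `G ≤ 11/48` below `π/4`; so the discontinuities of `G` in `[π/4, π)`
are exactly `π/4`, `π/3` and `π/2`. -/
theorem result :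
    (∀ α : ℝ, Tendsto (fun n : ℕ => ratio n (Set.Iio α)) atTop (𝓝 (G α))) ∧
    (∀ α : ℝ, Real.pi / 4 ≤ α → α < Real.pi / 3 → G α = 8 / 27) ∧
    (∀ α : ℝ, Real.pi / 3 ≤ α → α < Real.pi / 2 → G α = 5 / 12) ∧
    (∀ α : ℝ, Real.pi / 2 ≤ α → α < Real.pi → G α = 2 / 3) ∧
    (∀ α : ℝ, α < Real.pi / 4 → G α ≤ 11 / 48) ∧
    {α : ℝ | Real.pi / 4 ≤ α ∧ α < Real.pi ∧ ¬ ContinuousAt G α} =
      {Real.pi / 4, Real.pi / 3, Real.pi / 2} := by
  have hpi := Real.pi_pos
  refine ⟨fun α => tendsto_ratio _, Q5.G_quarter_eq, G_third, G_half, fun α hα => ?_, ?_⟩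
  · have := G_le 4 (by norm_num) α (by push_cast; linarith)
    norm_num at this
    linarith
  · ext α
    simp only [Set.mem_setOf_eq, Set.mem_insert_iff, Set.mem_singleton_iff]
    constructor
    · rintro ⟨h1, h2, h3⟩
      by_cases h4 : Real.pi / 3 ≤ α
      · exact Or.inr ((discont_G α h4 h2).1 h3)
      · left
        by_contra h5
        apply h3
        have h6 : Real.pi / 4 < α := lt_of_le_of_ne h1 (Ne.symm h5)
        have h7 : G =ᶠ[𝓝 α] fun _ => 8 / 27 := by
          filter_upwards [Ioo_mem_nhds h6 (not_le.1 h4)] with x hx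
          exact Q5.G_quarter_eq x hx.1.le hx.2
        exact (continuousAt_const).congr h7.symm
    · intro h
      rcases h with rfl | h
      · exact ⟨le_rfl, by linarith, not_continuousAt_G_quarter⟩
      · have h1 : Real.pi / 3 ≤ α ∧ α < Real.pi := by
          rcases h with rfl | rfl <;> constructor <;> linarith
        exact ⟨by linarith [h1.1], h1.2, (discont_G α h1.1 h1.2).2 h⟩

end Pool.Agent.Results.MP_0af329_co.GQuarter
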