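import Pool.Agent.MP_0af329_co.QU
import Pool.Agent.AKX.Half

/-!
# MP_0af329_co: `F(π/2) = 4/27`
-/

set_option autoImplicit false

namespace Pool.Agent.Results.MP_0af329_co.HalfExact

open Pool.Agent.MP_0af329_co Filter Topology

/-- The limit `F(π/2)` of the smallest proportion of angles greater than `π/2`, over all sets of `n`
points of the plane without three collinear points, exists and is equal to `4/27`. -/
theorem result :
    Tendsto (fun n : ℕ => ratio n (Set.Ioi (Real.pi / 2))) atTop (𝓝 (F (Real.pi / 2))) ∧
    F (Real.pi / 2) = 4 / 27 :=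
  ⟨tendsto_ratio _, le_antisymm QU.F_half_le Pool.Agent.AKX.half_ge⟩

end Pool.Agent.Results.MP_0af329_co.HalfExact
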